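import Pool.Agent.Y445.SGroupCp

/-!
# Function spaces that are `s`-groups but not Frechet-Urysohn (negative answer to Q1)

For every `T₃` `P`-space `X` of Lindelöf number at most `ℵ₁` the groups `C_p(X)` and `C_c(X)`
are `s`-groups; if `X` is not Lindelöf, they are not Frechet-Urysohn.  The discrete space of
cardinality `ℵ₁` is such a space.
-/

open Set Filter Topology Cardinal Pool.Agent.Y445

namespace Pool.Agent.Results.MP_174f4a_gt.PSpaceSGroups

universe u v

/-- Negative answer to Q1, for both function space topologies, in ZFC. -/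
theorem result :
    (∀ (X : Type u) [TopologicalSpace X] [T3Space X], IsPSpace X →
      LindelofNumberLeAlephOne X → ¬ LindelofSpace X →
      (IsSGroup.{u, v} (Cp X) ∧ ¬ FrechetUrysohnSpace (Cp X)) ∧
      (IsSGroup.{u, v} C(X, ℝ) ∧ ¬ FrechetUrysohnSpace C(X, ℝ))) ∧
    (∃ (X : Type u) (_ : TopologicalSpace X), T3Space X ∧ IsPSpace X ∧
      LindelofNumberLeAlephOne X ∧ ¬ LindelofSpace X ∧ DiscreteTopology X ∧ #X = ℵ₁) := by
  constructor
  · intro X _ _ hP hL hnot
    have hfin : ∀ K : Set X, IsCompact K → K.Finite := fun K hK => hP.finite_of_isCompact hK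
    have hs : IsSGroup.{u, v} (Cp X) := Cp.isSGroup hP hL
    exact ⟨⟨hs, fun h => hnot (lindelof_of_frechetUrysohn hP h)⟩,
      isSGroup_Cc hfin hs, fun h => hnot (lindelof_of_frechetUrysohn hP (frechetUrysohn_Cp hfin h))⟩
  · obtain ⟨X, _, _, hcard, -, hunc⟩ := exists_index.{u}
    let _ : TopologicalSpace X := ⊥
    have _ : DiscreteTopology X := ⟨rfl⟩
    exact ⟨X, ⊥, inferInstance, discrete_isPSpace X, lindelofNumber_of_card X hcard.le,
      not_lindelof_discrete X hunc, inferInstance, hcard⟩

end Pool.Agent.Results.MP_174f4a_gt.PSpaceSGroups
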